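import Pool.Agent.Q208.GR.Linfty
import Pool.Agent.Results.MP_898cae_lc.PropTEqContinuum

/-!
# `gr ≤ prop_(T)` in ZFC

The power set algebra of `ℕ` is an infinite Boolean algebra of cardinality `𝔠` with the
Grothendieck property (Grothendieck's theorem, proved here from scratch), and every maximal
subalgebra of `Bor(2^ℕ)` with property (T) has cardinality `𝔠`.  Hence `gr ≤ 𝔠 = prop_(T)`.
-/

set_option autoImplicit false

open Filter Topology Set Cardinal

namespace Pool.Agent.Results.MP_3e50fa_lc.GrLePropT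

open Pool.Agent.Q208.GR Pool.Agent.Results.MP_898cae_lc.PropTEqContinuum

/-- The Stone space of a Boolean algebra `A`: all Boolean homomorphisms `A → {0, 1}`, as a
subspace of the product space `{0, 1}^A`. -/
def stone (A : Type) [BooleanAlgebra A] : Set (A → Bool) :=
  {u | (∀ a b, u (a ⊓ b) = (u a && u b)) ∧ ∀ a, u aᶜ = !u a}

theorem isClosed_stone (A : Type) [BooleanAlgebra A] : IsClosed (stone A) := by
  have h : stone A = (⋂ (a : A) (b : A), {u : A → Bool | u (a ⊓ b) = (u a && u b)}) ∩
      ⋂ (a : A), {u : A → Bool | u aᶜ = !u a} := by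
    ext u
    simp only [stone, mem_setOf_eq, mem_inter_iff, mem_iInter]
  rw [h]
  refine IsClosed.inter ?_ ?_
  · refine isClosed_iInter fun a => isClosed_iInter fun b =>
      isClosed_eq (continuous_apply _) ?_
    have h1 : Continuous fun p : Bool × Bool => (p.1 && p.2) := continuous_of_discreteTopology
    have h2 : Continuous fun u : A → Bool => (u a, u b) :=
      (continuous_apply a).prodMk (continuous_apply b)
    exact h1.comp h2
  · refine isClosed_iInter fun a => isClosed_eq (continuous_apply _) ?_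
    have h1 : Continuous fun b : Bool => !b := continuous_of_discreteTopology
    exact h1.comp (continuous_apply a)

instance (A : Type) [BooleanAlgebra A] : CompactSpace (stone A) :=
  isCompact_iff_compactSpace.1 (isClosed_stone A).isCompact

/-- A Banach space is a Grothendieck space if every sequence in the dual which converges weak*
also converges weakly. -/
def IsGrothendieckSpace (Y : Type*) [NormedAddCommGroup Y] [NormedSpace ℝ Y] : Prop :=
  ∀ (f : ℕ → StrongDual ℝ Y) (g : StrongDual ℝ Y),
    (∀ x : Y, Tendsto (fun n => f n x) atTop (𝓝 (g x))) →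
    ∀ Φ : StrongDual ℝ (StrongDual ℝ Y), Tendsto (fun n => Φ (f n)) atTop (𝓝 (Φ g))

/-- The Boolean algebra `A` has the Grothendieck property: `C(St(A))` is a Grothendieck space. -/
def GrothendieckProperty (A : Type) [BooleanAlgebra A] : Prop :=
  IsGrothendieckSpace C(stone A, ℝ)

/-- The cardinal `gr`: the least cardinality of an infinite Boolean algebra with the
Grothendieck property. -/
noncomputable def gr : Cardinal.{0} :=
  sInf {κ | ∃ (A : Type) (_ : BooleanAlgebra A), Infinite A ∧ GrothendieckProperty A ∧ #A = κ}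

/-! ### Transfer -/

theorem transfer (Y : Type*) [NormedAddCommGroup Y] [NormedSpace ℝ Y] (R : Y ≃ₗᵢ[ℝ] X) :
    IsGrothendieckSpace Y := by
  intro f g hfg Φ
  let R' : Y →L[ℝ] X := R.toContinuousLinearEquiv
  let E : X →L[ℝ] Y := R.symm.toContinuousLinearEquiv
  have hER : ∀ y, E (R' y) = y := fun y => R.symm_apply_apply y
  let Ψ : StrongDual ℝ X →ₗ[ℝ] ℝ :=
    { toFun := fun ν => Φ (ν.comp R')
      map_add' := fun a b => by rw [ContinuousLinearMap.add_comp, map_add]
      map_smul' := fun c a => by rw [ContinuousLinearMap.smul_comp, map_smul]; rfl }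
  have hΨ : ∀ ν, |Ψ ν| ≤ (‖Φ‖ * ‖R'‖ + 1) * ‖ν‖ := by
    intro ν
    have h1 : |Ψ ν| ≤ ‖Φ‖ * ‖ν.comp R'‖ := Φ.le_opNorm _
    have h2 : ‖ν.comp R'‖ ≤ ‖ν‖ * ‖R'‖ := ContinuousLinearMap.opNorm_comp_le ν R'
    have h3 : ‖Φ‖ * ‖ν.comp R'‖ ≤ ‖Φ‖ * (‖ν‖ * ‖R'‖) :=
      mul_le_mul_of_nonneg_left h2 (norm_nonneg Φ)
    have h4 : 0 ≤ ‖ν‖ := norm_nonneg ν
    calc |Ψ ν| ≤ ‖Φ‖ * (‖ν‖ * ‖R'‖) := h1.trans h3
      _ ≤ (‖Φ‖ * ‖R'‖ + 1) * ‖ν‖ := by nlinarith
  have hc : 0 < ‖Φ‖ * ‖R'‖ + 1 := by
    have h1 : 0 ≤ ‖Φ‖ := norm_nonneg Φ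
    have h2 : 0 ≤ ‖R'‖ := norm_nonneg R'
    nlinarith [mul_nonneg h1 h2]
  have h1 := null (fun n => (f n - g).comp E) (fun x => by
    have h2 := (hfg (E x)).sub_const (g (E x))
    rw [sub_self] at h2
    exact h2) Ψ _ hc hΨ
  have h2 : ∀ n, Ψ ((f n - g).comp E) = Φ (f n) - Φ g := by
    intro n
    show Φ (((f n - g).comp E).comp R') = _
    rw [← map_sub]
    congr 1
    ext y
    show (f n - g) (E (R' y)) = _
    rw [hER]
  simp only [h2] at h1
  have h3 := h1.add_const (Φ g)
  simpa using h3

/-! ### The Stone space of the power set algebra of `ℕ` -/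

open Classical in
/-- The homomorphism given by an ultrafilter. -/
noncomputable def ofUltra (U : Ultrafilter ℕ) : stone (Set ℕ) :=
  ⟨fun S => decide (S ∈ U), by
    refine ⟨fun a b => ?_, fun a => ?_⟩
    · rw [← Bool.decide_and]
      exact decide_eq_decide.mpr (Filter.inter_mem_iff (f := (U : Filter ℕ)))
    · rw [← decide_not]
      exact decide_eq_decide.mpr Ultrafilter.compl_mem_iff_notMem⟩

theorem ofUltra_apply (U : Ultrafilter ℕ) (S : Set ℕ) : (ofUltra U).1 S = true ↔ S ∈ U := by
  simp [ofUltra]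

theorem stone_top (u : stone (Set ℕ)) : u.1 univ = true := by
  have h1 := u.2.2 (∅ : Set ℕ)
  have h2 := u.2.1 (∅ : Set ℕ) (∅ : Set ℕ)ᶜ
  have h3 : (∅ : Set ℕ) ⊓ (∅ : Set ℕ)ᶜ = ∅ := by simp
  rw [h3, h1] at h2
  rw [compl_empty] at h1
  rw [h1]
  cases h4 : u.1 (∅ : Set ℕ)
  · rfl
  · rw [h4] at h2
    simp at h2

/-- The ultrafilter of a homomorphism. -/
def toUltra (u : stone (Set ℕ)) : Ultrafilter ℕ :=
  Ultrafilter.ofComplNotMemIff
    { sets := {S | u.1 S = true}
      univ_sets := stone_top u
      sets_of_superset := by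
        intro S T hS hST
        have h1 := u.2.1 S T
        have h2 : S ⊓ T = S := inter_eq_left.mpr hST
        have hS' : u.1 S = true := hS
        rw [h2, hS'] at h1
        show u.1 T = true
        simpa using h1.symm
      inter_sets := by
        intro S T hS hT
        have h1 := u.2.1 S T
        have hS' : u.1 S = true := hS
        have hT' : u.1 T = true := hT
        rw [hS', hT'] at h1
        exact h1 }
    (fun S => by
      show ¬ (u.1 Sᶜ = true) ↔ u.1 S = true
      rw [u.2.2 S]
      simp)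

theorem mem_toUltra (u : stone (Set ℕ)) (S : Set ℕ) : S ∈ toUltra u ↔ u.1 S = true := Iff.rfl

theorem ofUltra_toUltra (u : stone (Set ℕ)) : ofUltra (toUltra u) = u := by
  apply Subtype.ext
  funext S
  have h := ofUltra_apply (toUltra u) S
  rw [mem_toUltra] at h
  cases h1 : u.1 S
  · rw [h1] at h
    simpa using h
  · rw [h1] at h
    simpa using h

theorem toUltra_ofUltra (U : Ultrafilter ℕ) : toUltra (ofUltra U) = U := by
  ext S
  rw [mem_toUltra, ofUltra_apply]

theorem continuous_ofUltra : Continuous ofUltra := by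
  apply Continuous.subtype_mk
  apply continuous_pi
  intro S
  have h : IsClopen {U : Ultrafilter ℕ | S ∈ U} :=
    ⟨ultrafilter_isClosed_basic S, ultrafilter_isOpen_basic S⟩
  rw [continuous_discrete_rng]
  intro b
  cases b
  · have : (fun U : Ultrafilter ℕ => (ofUltra U).1 S) ⁻¹' {false} =
        {U : Ultrafilter ℕ | S ∈ U}ᶜ := by
      ext U
      have := ofUltra_apply U S
      simp only [mem_preimage, mem_singleton_iff, mem_compl_iff, mem_setOf_eq]
      rw [← this]
      simp
    exact this ▸ h.compl.isOpen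
  · have : (fun U : Ultrafilter ℕ => (ofUltra U).1 S) ⁻¹' {true} =
        {U : Ultrafilter ℕ | S ∈ U} := by
      ext U
      exact ofUltra_apply U S
    exact this ▸ h.isOpen

theorem continuous_toUltra : Continuous toUltra := by
  rw [ultrafilterBasis_is_basis.continuous_iff]
  rintro _ ⟨S, rfl⟩
  have h1 : toUltra ⁻¹' {U : Ultrafilter ℕ | S ∈ U} =
      (fun u : stone (Set ℕ) => u.1 S) ⁻¹' {true} := by
    ext u
    exact mem_toUltra u S
  rw [h1]
  exact (isOpen_discrete {true}).preimage ((continuous_apply S).comp continuous_subtype_val)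

/-- The principal homomorphism at `n`. -/
noncomputable def pt (n : ℕ) : stone (Set ℕ) := ofUltra (pure n)

theorem denseRange_pt : DenseRange pt := by
  have h1 : DenseRange ofUltra :=
    (Function.RightInverse.surjective ofUltra_toUltra).denseRange
  exact h1.comp denseRange_pure continuous_ofUltra

/-- Restriction of continuous functions on the Stone space to the principal points. -/
noncomputable def restr (f : C(stone (Set ℕ), ℝ)) : X :=
  BoundedContinuousFunction.ofNormedAddCommGroupDiscrete (fun n => f (pt n)) ‖f‖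
    (fun n => f.norm_coe_le_norm (pt n))

theorem restr_apply (f : C(stone (Set ℕ), ℝ)) (n : ℕ) : restr f n = f (pt n) := rfl

theorem norm_restr (f : C(stone (Set ℕ), ℝ)) : ‖restr f‖ = ‖f‖ := by
  apply le_antisymm
  · rw [BoundedContinuousFunction.norm_le (norm_nonneg _)]
    intro n
    exact f.norm_coe_le_norm (pt n)
  · rw [ContinuousMap.norm_le f (norm_nonneg _)]
    intro u
    refine denseRange_pt.induction_on u ?_ ?_
    · exact isClosed_le (f.continuous.norm) continuous_const
    · intro n
      exact (restr f).norm_coe_le_norm n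

/-- Restriction as a linear isometry. -/
noncomputable def restrL : C(stone (Set ℕ), ℝ) →ₗᵢ[ℝ] X where
  toFun := restr
  map_add' f g := by ext n; rfl
  map_smul' c f := by ext n; rfl
  norm_map' := norm_restr

theorem restr_surj : Function.Surjective restrL := by
  intro x
  let x' : ℕ → Icc (-‖x‖) ‖x‖ := fun n => ⟨x n, abs_le.mp (abs_le_norm x n)⟩
  have hc : Continuous fun u : stone (Set ℕ) =>
      ((Ultrafilter.extend x' (toUltra u) : Icc (-‖x‖) ‖x‖) : ℝ) :=
    continuous_subtype_val.comp ((continuous_ultrafilter_extend x').comp continuous_toUltra)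
  refine ⟨⟨_, hc⟩, ?_⟩
  ext n
  show ((Ultrafilter.extend x' (toUltra (pt n)) : Icc (-‖x‖) ‖x‖) : ℝ) = x n
  unfold pt
  rw [toUltra_ofUltra]
  have h1 := congrFun (ultrafilter_extend_extends x') n
  simp only [Function.comp] at h1
  rw [h1]

/-- The isometry `C(St(P(ℕ))) ≅ ℓ_∞`. -/
noncomputable def iso : C(stone (Set ℕ), ℝ) ≃ₗᵢ[ℝ] X :=
  LinearIsometryEquiv.ofSurjective restrL restr_surj

/-- Grothendieck's theorem: `P(ℕ)` has the Grothendieck property. -/
theorem grothendieck_powerset : GrothendieckProperty (Set ℕ) := transfer _ iso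

/-- **Main theorem.**  There is an infinite Boolean algebra with the Grothendieck property of
cardinality `𝔠`, and `gr ≤ prop_(T)`; in fact `prop_(T) = 𝔠`. -/
theorem result :
    (∃ (A : Type) (_ : BooleanAlgebra A), Infinite A ∧ GrothendieckProperty A ∧ #A = 𝔠) ∧
      propT = 𝔠 ∧ gr ≤ propT := by
  have h1 : ∃ (A : Type) (_ : BooleanAlgebra A),
      Infinite A ∧ GrothendieckProperty A ∧ #A = 𝔠 :=
    ⟨Set ℕ, inferInstance, inferInstance, grothendieck_powerset, by simp⟩
  have h2 := Pool.Agent.Results.MP_898cae_lc.PropTEqContinuum.result.1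
  exact ⟨h1, h2, h2 ▸ csInf_le' h1⟩

end Pool.Agent.Results.MP_3e50fa_lc.GrLePropT
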